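import Pool.Agent.R574.CA.Main

set_option autoImplicit false

/-!
# No family of control languages characterizes CS by state-controlled finite automata

For every family `𝓛`, the family `SCFA(𝓛)` is closed under the erasing of a letter (reading this
letter becomes a move on the empty word, and the record word is the same), but the family of the
context-sensitive languages is not. A context-sensitive language whose image is not
context-sensitive, even up to the empty word, is constructed from the counter programs of
MP_9d0328_lc: a noncontracting grammar generates padded versions of the words of a diagonal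
language.
-/

open Pool.Agent.R574.CA in
/-- For no family `𝓛` whatsoever, `SCFA(𝓛)` is the family of the context-sensitive languages. More
precisely, there is a context-sensitive language `L₀` such that for every family `𝓛`: if `SCFA(𝓛)`
contains `L₀` up to the empty word, then `SCFA(𝓛)` contains a language which is not
context-sensitive (not even up to the empty word, as `CS` is defined up to the empty word). -/
theorem Pool.Agent.Results.MP_020f70_lc.NoControlFamilyForCS.result :
    (∀ 𝓛 : Fam, ¬ ∀ (A : Type) [Finite A] (L : Set (List A)), L ∈ SCFA 𝓛 A ↔ L ∈ CS A) ∧
    ∃ L₀ ∈ CS (Option (Fin 3)), ∀ (𝓛 : Fam), ∀ L ∈ SCFA 𝓛 (Option (Fin 3)),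
      L \ {[]} = L₀ \ {[]} → ∃ L' ∈ SCFA 𝓛 (Fin 3), L' ∉ CS (Fin 3) :=
  ⟨Main.no_family, Main.main⟩
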